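import Pool.Agent.Work.MP_b59478_pr.Main

/-! The interface of the three-dimensional Ising droplet converges to the Wulff surface in
Hausdorff distance at low temperature. -/

set_option autoImplicit false

namespace Pool.Agent.Results.MP_b59478_pr.HausdorffWulff

open Filter Topology MeasureTheory Pool.Agent.Work.MP_b59478_pr

theorem result (b : ℝ) (hb : 0 < b) (hb' : b < 1 / 2) : ∃ β0 : ℝ, ∀ β : ℝ, β0 ≤ β →
    ∃ (ms : ℝ) (τ : E3 → ℝ) (lam : ℝ), 0 < ms ∧ IsMag β ms ∧ IsTension β τ ∧ 0 < lam ∧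
      volume (wulff τ lam) = ENNReal.ofReal (b / (2 * ms)) ∧
      ∀ m : ℕ → ℤ, (∀ N, IsNearest N (-ms * (2 * (N : ℝ) + 1) ^ 3 + b * (N : ℝ) ^ 3) (m N)) →
        ∀ ε : ℝ, 0 < ε →
          Tendsto (fun N => condProb β N (m N) (Far N (wulff τ lam) ε)) atTop (𝓝 0) :=
  main b hb hb'

end Pool.Agent.Results.MP_b59478_pr.HausdorffWulff
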